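import Pool.Agent.R474.CE.StmQ
import Pool.Agent.R474.CEB.QCOR

/-!
# Consecutive embeddings of posets: assembly
-/

set_option autoImplicit false

namespace Pool.Agent.R474.CE.AsmQ

open Pool.Agent.R474.CE

theorem std (hPBD : S_PBD) (B : Inp) : Std (bas B) (bd B) :=
  ⟨by unfold bd; omega, hPBD.2.2 B⟩

theorem wq_iff (hPBD : S_PBD) (hCOR : S_QCORx) (hPUMP : S_QPUMP) (hMKP : S_QMKP) (hMKN : S_QMKN)
    (hLEMB : S_QLEMB) (hWSUF : S_QWSUF) (B : Inp) : wQ B ↔ WQO (Av Pos (bas B)) := by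
  have hS := std hPBD B
  have hb := hS.1
  have hbD : bd B ≤ KK (bd B) := by
    unfold KK
    omega
  constructor
  · rintro ⟨hw1, hw2⟩
    have hF : ∀ m, KK (bd B) ≤ m → ¬ FreeP (Av Pos (bas B)) m := by
      intro m
      induction m using Nat.strong_induction_on with
      | _ m ih =>
        intro hm hF
        by_cases h : m ≤ 2 * KK (bd B)
        · exact hw1 m (by omega) hm ((hCOR.2.1 B (2 ^ (m * m)) m (by omega) le_rfl).2 hF)
        · obtain ⟨⟨m', h1, h2, h3, h4⟩, _⟩ := hPUMP _ _ hS m hm hF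
          exact ih m' h2 (by omega) h4
    have hM : ∀ n, TT (KK (bd B)) ≤ n → ¬ MK (Av Pos (bas B)) (KK (bd B)) n := by
      intro n
      induction n using Nat.strong_induction_on with
      | _ n ih =>
        intro hn hM
        by_cases h : n ≤ 2 * TT (KK (bd B))
        · exact hw2 n (by omega) hn ((hCOR.2.2.1 B (2 ^ (n * n)) (KK (bd B)) n le_rfl).2 hM)
        · obtain ⟨⟨n', h1, h2, h3⟩, _⟩ := hMKP _ _ _ hS hbD n hn hM
          exact ih n' h1 (by omega) h3
    exact hWSUF _ _ _ hS hbD (fun m hm => hF m (by omega)) hM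
  · intro hW
    refine ⟨?_, ?_⟩
    · intro m hm hK hfr
      have hF := (hCOR.2.1 B (2 ^ (m * m)) m (by omega) le_rfl).1 hfr
      obtain ⟨m0, h0⟩ := hLEMB _ _ hS hW
      have key : ∀ k, ∃ m, k ≤ m ∧ KK (bd B) ≤ m ∧ FreeP (Av Pos (bas B)) m := by
        intro k
        induction k with
        | zero => exact ⟨m, by omega, hK, hF⟩
        | succ k ih =>
          obtain ⟨m1, h1, h2, h3⟩ := ih
          obtain ⟨_, m2, h4, h5⟩ := hPUMP _ _ hS m1 h2 h3
          exact ⟨m2, by omega, by omega, h5⟩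
      obtain ⟨m1, h1, _, h3⟩ := key m0
      exact h0 m1 h1 h3
    · intro n hn hT hmk
      have hM := (hCOR.2.2.1 B (2 ^ (n * n)) (KK (bd B)) n le_rfl).1 hmk
      refine hMKN _ _ _ hS hbD ?_ hW
      have key : ∀ k, ∃ n, k ≤ n ∧ TT (KK (bd B)) ≤ n ∧ MK (Av Pos (bas B)) (KK (bd B)) n := by
        intro k
        induction k with
        | zero => exact ⟨n, by omega, hT, hM⟩
        | succ k ih =>
          obtain ⟨m1, h1, h2, h3⟩ := ih
          obtain ⟨_, m2, h4, h5⟩ := hMKP _ _ _ hS hbD m1 h2 h3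
          exact ⟨m2, by omega, by omega, h5⟩
      intro n0
      obtain ⟨m1, h1, _, h3⟩ := key n0
      exact ⟨m1, h1, h3⟩

theorem aq_iff (hPBD : S_PBD) (hCOR : S_QCORx) (hPUMP : S_QPUMP) (hCN : S_QCN) (hBI : S_QBI)
    (hJS : S_QJS) (hNF : S_QNF) (B : Inp) : aQ B ↔ JE (Av Pos (bas B)) := by
  have hS := std hPBD B
  have hb := hS.1
  have hbK : bd B ≤ KK (bd B) := by
    unfold KK
    omega
  constructor
  · rintro ⟨h1, h2⟩
    have hjs := (hCOR.2.2.2.1 B _ (bd B) hb le_rfl).1 h1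
    rcases h2 with h2 | h2
    · exact hCN _ _ hS hjs ((hCOR.2.2.2.2 B _ (bd B) hb le_rfl).1 h2)
    · have hF : ∀ m, bd B < m → ¬ FreeP (Av Pos (bas B)) m := by
        intro m
        induction m using Nat.strong_induction_on with
        | _ m ih =>
          intro hm hF
          by_cases h : m ≤ 2 * KK (bd B)
          · exact h2 m (by omega) hm ((hCOR.2.1 B (2 ^ (m * m)) m (by omega) le_rfl).2 hF)
          · obtain ⟨⟨m', h1, h2, h3, h4⟩, _⟩ := hPUMP _ _ hS m (by omega) hF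
            exact ih m' h2 h1 h4
      by_cases hc : CN (Av Pos (bas B)) (bd B)
      · exact hCN _ _ hS hjs hc
      · exact hBI _ _ hS hjs hc hF
  · intro hJ
    refine ⟨(hCOR.2.2.2.1 B _ (bd B) hb le_rfl).2 (hJS _ _ hS hJ), ?_⟩
    by_cases hc : CN (Av Pos (bas B)) (bd B)
    · exact Or.inl ((hCOR.2.2.2.2 B _ (bd B) hb le_rfl).2 hc)
    · right
      intro m hm hbm hfr
      exact hNF _ _ hS hJ hc m hbm ((hCOR.2.1 B (2 ^ (m * m)) m (by omega) le_rfl).1 hfr)

theorem main (hPBD : S_PBD) (hCOR : S_QCORx) (hPUMP : S_QPUMP) (hMKP : S_QMKP) (hMKN : S_QMKN)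
    (hLEMB : S_QLEMB) (hWSUF : S_QWSUF) (hCN : S_QCN) (hBI : S_QBI)
    (hJS : S_QJS) (hNF : S_QNF) (hJEP : S_JEP) (hRES : S_QRES) (hPW : S_QPW) (hPA : S_QPA) :
    ComputablePred (fun B : Inp => WQO (Av Pos (bas B))) ∧
    ComputablePred (fun B : Inp => Atomic (Av Pos (bas B))) := by
  refine ⟨?_, ?_⟩
  · exact ComputablePred.of_eq (PrimrecPred.computablePred hPW)
      (fun B => wq_iff hPBD hCOR hPUMP hMKP hMKN hLEMB hWSUF B)
  · refine ComputablePred.of_eq (PrimrecPred.computablePred hPA) (fun B => ?_)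
    rw [aq_iff hPBD hCOR hPUMP hCN hBI hJS hNF B, hJEP _ (fun x hx y hy => (hRES (bas B)).1 x hx y hy)]
    rfl

end Pool.Agent.R474.CE.AsmQ
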