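import Pool.Agent.R474.CE.StmQ

set_option autoImplicit false

namespace Pool.Agent.R474.CE

theorem QCUT : S_QRES → S_QGLUE → S_PER → S_QCUT := by
  intro hRes hGlue hPer B b hb u v z hz hP
  have hb1 : 1 ≤ b := hb.1
  suffices H : ∀ N, ∀ z ∈ Av Pos B, z.n ≤ N → Path b u v z →
      ∃ z' ∈ Av Pos B, z'.n ≤ M b ∧ Path b u v z' from H z.n z hz le_rfl hP
  intro N
  induction N using Nat.strong_induction_on with
  | _ N ih =>
    intro z hz hn hP
    by_cases hM : z.n ≤ M b
    · exact ⟨z, hz, hM, hP⟩
    · push Not at hM
      unfold M at hM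
      obtain ⟨i, j, hij, hj, hw⟩ := hPer b z
      obtain ⟨hbn, h0, h1⟩ := hP
      have ha := (hRes B).2 z hz 0 (i + b) (by omega)
      have hc := (hRes B).2 z hz j (z.n - j) (by omega)
      have hw0 : Win b (win z 0 (i + b)) ((win z 0 (i + b)).n - b) (win z j (z.n - j)) 0 := by
        intro s hs t ht
        show z.R (0 + (i + b - b + s)) (0 + (i + b - b + t)) = z.R (j + (0 + s)) (j + (0 + t))
        have e1 : 0 + (i + b - b + s) = i + s := by omega
        have e2 : 0 + (i + b - b + t) = i + t := by omega
        rw [e1, e2, zero_add, zero_add]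
        exact hw s hs t ht
      obtain ⟨y, hy, hyn, hy0, hy1, -⟩ := hGlue B b hb b le_rfl _ ha _ hc
        (by show b ≤ i + b; omega) (by show b ≤ z.n - j; omega) hw0
      have hyn' : y.n + b = (i + b) + (z.n - j) := hyn
      refine ih y.n (by omega) y hy le_rfl ⟨by omega, ?_, ?_⟩
      · intro s hs t ht
        have h2 : y.R (0 + s) (0 + t) = z.R (0 + (0 + s)) (0 + (0 + t)) :=
          hy0 s (by show s < i + b; omega) t (by show t < i + b; omega)
        have h3 := h0 s hs t ht
        simp only [zero_add] at h2 h3 ⊢
        rw [h2, h3]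
      · intro s hs t ht
        have h2 : y.R (i + b - b + (z.n - j - b + s)) (i + b - b + (z.n - j - b + t)) =
            z.R (j + (0 + (z.n - j - b + s))) (j + (0 + (z.n - j - b + t))) :=
          hy1 (z.n - j - b + s) (by show _ < z.n - j; omega) (z.n - j - b + t)
            (by show _ < z.n - j; omega)
        have e1 : y.n - b + s = i + b - b + (z.n - j - b + s) := by omega
        have e2 : y.n - b + t = i + b - b + (z.n - j - b + t) := by omega
        have e3 : j + (0 + (z.n - j - b + s)) = z.n - b + s := by omega
        have e4 : j + (0 + (z.n - j - b + t)) = z.n - b + t := by omega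
        have h3 := h1 s hs t ht
        rw [e1, e2, h2, e3, e4]
        exact h3

end Pool.Agent.R474.CE
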