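import Pool.Agent.R474.CE.StmQ

set_option autoImplicit false
set_option linter.all false

/-! Piece QGLUE of project CE (MP_7b05dd_co): the free amalgam of two posets. -/

namespace Pool.Agent.R474.CE

namespace QGLUE

def Rel (X Z : ℕ → ℕ → Prop) (s t : ℕ) : Prop :=
  X s t ∨ Z s t ∨ (∃ w, X s w ∧ Z w t) ∨ (∃ w, Z s w ∧ X w t)

structure H (X Z : ℕ → ℕ → Prop) (P Q : ℕ → Prop) : Prop where
  xp : ∀ s t, X s t → P s ∧ P t
  zq : ∀ s t, Z s t → Q s ∧ Q t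
  xt : ∀ s t u, X s t → X t u → X s u
  zt : ∀ s t u, Z s t → Z t u → Z s u
  xa : ∀ s t, X s t → X t s → s = t
  za : ∀ s t, Z s t → Z t s → s = t
  xz : ∀ s t, P s → Q s → P t → Q t → X s t → Z s t
  zx : ∀ s t, P s → Q s → P t → Q t → Z s t → X s t

section
variable {X Z : ℕ → ℕ → Prop} {P Q : ℕ → Prop}

theorem k1' (h : H X Z P Q) : ∀ a b c, X a b → Z b c → P c → X a c := by
  intro a b c h1 h2 h3
  exact h.xt _ _ _ h1 (h.zx _ _ (h.xp _ _ h1).2 (h.zq _ _ h2).1 h3 (h.zq _ _ h2).2 h2)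

theorem k1'' (h : H X Z P Q) : ∀ a b c, P a → Z a b → X b c → X a c := by
  intro a b c h1 h2 h3
  exact h.xt _ _ _ (h.zx _ _ h1 (h.zq _ _ h2).1 (h.xp _ _ h3).1 (h.zq _ _ h2).2 h2) h3

theorem k2' (h : H X Z P Q) : ∀ a b c, Z a b → X b c → Q c → Z a c := by
  intro a b c h1 h2 h3
  exact h.zt _ _ _ h1 (h.xz _ _ (h.xp _ _ h2).1 (h.zq _ _ h1).2 (h.xp _ _ h2).2 h3 h2)

theorem k2'' (h : H X Z P Q) : ∀ a b c, Q a → X a b → Z b c → Z a c := by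
  intro a b c h1 h2 h3
  exact h.zt _ _ _ (h.xz _ _ (h.xp _ _ h2).1 h1 (h.xp _ _ h2).2 (h.zq _ _ h3).1 h2) h3

theorem k1 (h : H X Z P Q) : ∀ a b c d, X a b → Z b c → X c d → X a d := by
  intro a b c d h1 h2 h3
  exact h.xt _ _ _ (k1' h _ _ _ h1 h2 (h.xp _ _ h3).1) h3

theorem k2 (h : H X Z P Q) : ∀ a b c d, Z a b → X b c → Z c d → Z a d := by
  intro a b c d h1 h2 h3
  exact h.zt _ _ _ (k2' h _ _ _ h1 h2 (h.zq _ _ h3).1) h3

theorem rel_trans (h : H X Z P Q) {s t u : ℕ} (h1 : Rel X Z s t) (h2 : Rel X Z t u) :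
    Rel X Z s u := by
  rcases h1 with h1 | h1 | ⟨w, h1, h1'⟩ | ⟨w, h1, h1'⟩
  · rcases h2 with h2 | h2 | ⟨v, h2, h2'⟩ | ⟨v, h2, h2'⟩
    · exact Or.inl (h.xt _ _ _ h1 h2)
    · exact Or.inr (Or.inr (Or.inl ⟨t, h1, h2⟩))
    · exact Or.inr (Or.inr (Or.inl ⟨v, h.xt _ _ _ h1 h2, h2'⟩))
    · exact Or.inl (k1 h _ _ _ _ h1 h2 h2')
  · rcases h2 with h2 | h2 | ⟨v, h2, h2'⟩ | ⟨v, h2, h2'⟩
    · exact Or.inr (Or.inr (Or.inr ⟨t, h1, h2⟩))
    · exact Or.inr (Or.inl (h.zt _ _ _ h1 h2))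
    · exact Or.inr (Or.inl (k2 h _ _ _ _ h1 h2 h2'))
    · exact Or.inr (Or.inr (Or.inr ⟨v, h.zt _ _ _ h1 h2, h2'⟩))
  · rcases h2 with h2 | h2 | ⟨v, h2, h2'⟩ | ⟨v, h2, h2'⟩
    · exact Or.inl (k1 h _ _ _ _ h1 h1' h2)
    · exact Or.inr (Or.inr (Or.inl ⟨w, h1, h.zt _ _ _ h1' h2⟩))
    · exact Or.inr (Or.inr (Or.inl ⟨v, k1 h _ _ _ _ h1 h1' h2, h2'⟩))
    · exact Or.inl (k1 h _ _ _ _ h1 (h.zt _ _ _ h1' h2) h2')
  · rcases h2 with h2 | h2 | ⟨v, h2, h2'⟩ | ⟨v, h2, h2'⟩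
    · exact Or.inr (Or.inr (Or.inr ⟨w, h1, h.xt _ _ _ h1' h2⟩))
    · exact Or.inr (Or.inl (k2 h _ _ _ _ h1 h1' h2))
    · exact Or.inr (Or.inl (k2 h _ _ _ _ h1 (h.xt _ _ _ h1' h2) h2'))
    · exact Or.inr (Or.inr (Or.inr ⟨v, k2 h _ _ _ _ h1 h1' h2, h2'⟩))

theorem rel_anti (h : H X Z P Q) {s t : ℕ} (h1 : Rel X Z s t) (h2 : Rel X Z t s) :
    s = t := by
  rcases h1 with h1 | h1 | ⟨w, h1, h1'⟩ | ⟨w, h1, h1'⟩
  · rcases h2 with h2 | h2 | ⟨v, h2, h2'⟩ | ⟨v, h2, h2'⟩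
    · exact h.xa _ _ h1 h2
    · exact h.xa _ _ h1 (h.zx _ _ (h.xp _ _ h1).2 (h.zq _ _ h2).1 (h.xp _ _ h1).1 (h.zq _ _ h2).2 h2)
    · exact h.xa _ _ h1 (k1' h _ _ _ h2 h2' (h.xp _ _ h1).1)
    · exact h.xa _ _ h1 (k1'' h _ _ _ (h.xp _ _ h1).2 h2 h2')
  · rcases h2 with h2 | h2 | ⟨v, h2, h2'⟩ | ⟨v, h2, h2'⟩
    · exact h.za _ _ h1 (h.xz _ _ (h.xp _ _ h2).1 (h.zq _ _ h1).2 (h.xp _ _ h2).2 (h.zq _ _ h1).1 h2)
    · exact h.za _ _ h1 h2
    · exact h.za _ _ h1 (k2'' h _ _ _ (h.zq _ _ h1).2 h2 h2')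
    · exact h.za _ _ h1 (k2' h _ _ _ h2 h2' (h.zq _ _ h1).1)
  · rcases h2 with h2 | h2 | ⟨v, h2, h2'⟩ | ⟨v, h2, h2'⟩
    · exact h.xa _ _ (k1' h _ _ _ h1 h1' (h.xp _ _ h2).1) h2
    · exact h.za _ _ (k2'' h _ _ _ (h.zq _ _ h2).2 h1 h1') h2
    · exact h.xa _ _ (k1' h _ _ _ h1 h1' (h.xp _ _ h2).1) (k1' h _ _ _ h2 h2' (h.xp _ _ h1).1)
    · have e : s = v := h.xa _ _ (k1' h _ _ _ h1 (h.zt _ _ _ h1' h2) (h.xp _ _ h2').1) h2'
      subst e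
      exact h.za _ _ (k2'' h _ _ _ (h.zq _ _ h2).2 h1 h1') h2
  · rcases h2 with h2 | h2 | ⟨v, h2, h2'⟩ | ⟨v, h2, h2'⟩
    · exact h.xa _ _ (k1'' h _ _ _ (h.xp _ _ h2).2 h1 h1') h2
    · exact h.za _ _ (k2' h _ _ _ h1 h1' (h.zq _ _ h2).1) h2
    · have e : s = v := h.za _ _ (k2' h _ _ _ h1 (h.xt _ _ _ h1' h2) (h.zq _ _ h2').1) h2'
      subst e
      exact h.xa _ _ (k1'' h _ _ _ (h.xp _ _ h2).2 h1 h1') h2
    · exact h.za _ _ (k2' h _ _ _ h1 h1' (h.zq _ _ h2).1) (k2' h _ _ _ h2 h2' (h.zq _ _ h1).1)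

theorem rel_P (h : H X Z P Q) {s t : ℕ} (hs : P s) (ht : P t) : Rel X Z s t ↔ X s t := by
  constructor
  · rintro (h1 | h1 | ⟨w, h1, h1'⟩ | ⟨w, h1, h1'⟩)
    · exact h1
    · exact h.zx _ _ hs (h.zq _ _ h1).1 ht (h.zq _ _ h1).2 h1
    · exact k1' h _ _ _ h1 h1' ht
    · exact k1'' h _ _ _ hs h1 h1'
  · exact Or.inl

theorem rel_Q (h : H X Z P Q) {s t : ℕ} (hs : Q s) (ht : Q t) : Rel X Z s t ↔ Z s t := by
  constructor
  · rintro (h1 | h1 | ⟨w, h1, h1'⟩ | ⟨w, h1, h1'⟩)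
    · exact h.xz _ _ (h.xp _ _ h1).1 hs (h.xp _ _ h1).2 ht h1
    · exact h1
    · exact k2'' h _ _ _ hs h1 h1'
    · exact k2' h _ _ _ h1 h1' ht
  · exact fun h1 => Or.inr (Or.inl h1)

/-- a cross relation passes through the overlap -/
theorem rel_cross (h : H X Z P Q) (xr : ∀ s, P s → X s s) (zr : ∀ s, Q s → Z s s) {s t : ℕ}
    (hs : P s) (ht : Q t) (h1 : Rel X Z s t) : ∃ w, P w ∧ Q w ∧ X s w ∧ Z w t := by
  rcases h1 with h1 | h1 | ⟨w, h1, h1'⟩ | ⟨w, h1, h1'⟩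
  · exact ⟨t, (h.xp _ _ h1).2, ht, h1, zr _ ht⟩
  · exact ⟨s, hs, (h.zq _ _ h1).1, xr _ hs, h1⟩
  · exact ⟨w, (h.xp _ _ h1).2, (h.zq _ _ h1').1, h1, h1'⟩
  · exact ⟨t, (h.xp _ _ h1').2, ht, k1'' h _ _ _ hs h1 h1', zr _ ht⟩

theorem rel_cross' (h : H X Z P Q) (xr : ∀ s, P s → X s s) (zr : ∀ s, Q s → Z s s) {s t : ℕ}
    (hs : P s) (ht : Q t) (h1 : Rel X Z t s) : ∃ w, P w ∧ Q w ∧ Z t w ∧ X w s := by
  rcases h1 with h1 | h1 | ⟨w, h1, h1'⟩ | ⟨w, h1, h1'⟩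
  · exact ⟨t, (h.xp _ _ h1).1, ht, zr _ ht, h1⟩
  · exact ⟨s, hs, (h.zq _ _ h1).2, h1, xr _ hs⟩
  · exact ⟨t, (h.xp _ _ h1).1, ht, zr _ ht, k1' h _ _ _ h1 h1' hs⟩
  · exact ⟨w, (h.xp _ _ h1').1, (h.zq _ _ h1).2, h1, h1'⟩

end

def XR (x : Str) (s t : ℕ) : Prop := s < x.n ∧ t < x.n ∧ x.R s t = true
def ZR (o : ℕ) (z : Str) (s t : ℕ) : Prop :=
  (o ≤ s ∧ s < o + z.n) ∧ (o ≤ t ∧ t < o + z.n) ∧ z.R (s - o) (t - o) = true

theorem mkH (x z : Str) (D : ℕ) (hx : Pos x) (hz : Pos z) (h1 : D ≤ x.n) (h2 : D ≤ z.n)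
    (hw : Win D x (x.n - D) z 0) :
    H (XR x) (ZR (x.n - D) z) (fun s => s < x.n) (fun s => x.n - D ≤ s ∧ s < x.n - D + z.n) := by
  have ov : ∀ s t, x.n - D ≤ s → s < x.n → x.n - D ≤ t → t < x.n →
      x.R s t = z.R (s - (x.n - D)) (t - (x.n - D)) := by
    intro s t a1 a2 a3 a4
    have := hw (s - (x.n - D)) (by omega) (t - (x.n - D)) (by omega)
    rw [show x.n - D + (s - (x.n - D)) = s by omega, show x.n - D + (t - (x.n - D)) = t by omega,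
      zero_add, zero_add] at this
    exact this
  refine ⟨?_, ?_, ?_, ?_, ?_, ?_, ?_, ?_⟩
  · rintro s t ⟨a, b, c⟩
    exact ⟨a, b⟩
  · rintro s t ⟨a, b, c⟩
    exact ⟨a, b⟩
  · rintro s t u ⟨a, b, c⟩ ⟨a', b', c'⟩
    exact ⟨a, b', hx.2.2 s a t b u b' c c'⟩
  · rintro s t u ⟨a, b, c⟩ ⟨a', b', c'⟩
    exact ⟨a, b', hz.2.2 _ (by omega) _ (by omega) _ (by omega) c c'⟩
  · rintro s t ⟨a, b, c⟩ ⟨a', b', c'⟩
    by_contra hne
    have := hx.2.1 s a t b hne c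
    rw [this] at c'
    exact Bool.false_ne_true c'
  · rintro s t ⟨a, b, c⟩ ⟨a', b', c'⟩
    by_contra hne
    have := hz.2.1 (s - (x.n - D)) (by omega) (t - (x.n - D)) (by omega) (by omega) c
    rw [this] at c'
    exact Bool.false_ne_true c'
  · rintro s t a b c d ⟨e1, e2, e3⟩
    refine ⟨b, d, ?_⟩
    rw [← ov s t b.1 a d.1 c]
    exact e3
  · rintro s t a b c d ⟨e1, e2, e3⟩
    refine ⟨a, c, ?_⟩
    rw [ov s t b.1 a d.1 c]
    exact e3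

open Classical in
noncomputable def yy (x z : Str) (D : ℕ) : Str :=
  ⟨x.n - D + z.n, fun s t => decide (Rel (XR x) (ZR (x.n - D) z) s t)⟩

theorem yy_true (x z : Str) (D s t : ℕ) :
    (yy x z D).R s t = true ↔ Rel (XR x) (ZR (x.n - D) z) s t := by
  simp [yy]

theorem bool_eq {a b : Bool} (h : a = true ↔ b = true) : a = b := by
  cases a <;> cases b <;> simp_all

end QGLUE

open QGLUE in
theorem QGLUE (hL : S_QLOC) : S_QGLUE := by
  intro B b hStd D hD x hx z hz hDx hDz hw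
  have hH := mkH x z D hx.1 hz.1 hDx hDz hw
  have xr : ∀ s, s < x.n → XR x s s := fun s hs => ⟨hs, hs, hx.1.1 s hs⟩
  have zr : ∀ s, (x.n - D ≤ s ∧ s < x.n - D + z.n) → ZR (x.n - D) z s s := fun s hs =>
    ⟨hs, hs, hz.1.1 _ (by omega)⟩
  have hn : (yy x z D).n = x.n - D + z.n := rfl
  -- restriction to x and z
  have rx : ∀ s t, s < x.n → t < x.n → (yy x z D).R s t = x.R s t := by
    intro s t hs ht
    apply bool_eq
    rw [yy_true, rel_P hH hs ht]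
    exact ⟨fun h => h.2.2, fun h => ⟨hs, ht, h⟩⟩
  have rz : ∀ s t, s < z.n → t < z.n →
      (yy x z D).R (x.n - D + s) (x.n - D + t) = z.R s t := by
    intro s t hs ht
    apply bool_eq
    rw [yy_true, rel_Q hH ⟨by omega, by omega⟩ ⟨by omega, by omega⟩]
    constructor
    · intro h
      have := h.2.2
      rwa [show x.n - D + s - (x.n - D) = s by omega,
        show x.n - D + t - (x.n - D) = t by omega] at this
    · intro h
      refine ⟨⟨by omega, by omega⟩, ⟨by omega, by omega⟩, ?_⟩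
      rwa [show x.n - D + s - (x.n - D) = s by omega,
        show x.n - D + t - (x.n - D) = t by omega]
  have hb1 : 1 ≤ b := hStd.1
  have hpos : Pos (yy x z D) := by
    refine ⟨?_, ?_, ?_⟩
    · intro i hi
      rw [hn] at hi
      by_cases hx' : i < x.n
      · rw [rx i i hx' hx']; exact hx.1.1 i hx'
      · rw [yy_true]
        exact Or.inr (Or.inl (zr i ⟨by omega, by omega⟩))
    · intro i hi j hj hij h
      rw [yy_true] at h
      cases h' : (yy x z D).R j i with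
      | false => rfl
      | true =>
        rw [yy_true] at h'
        exact absurd (rel_anti hH h h') hij
    · intro i hi j hj k hk h h'
      rw [yy_true] at h h' ⊢
      exact rel_trans hH h h'
  refine ⟨yy x z D, ?_, ?_, ?_, ?_, ?_, ?_⟩
  · refine hL B b hStd (yy x z D) hpos (by rw [hn]; omega) ?_
    intro k hk
    rw [hn] at hk
    by_cases hkx : k + b ≤ x.n
    · refine ⟨x, hx, k, hkx, ?_⟩
      intro s hs t ht
      exact rx _ _ (by omega) (by omega)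
    · refine ⟨z, hz, k - (x.n - D), by omega, ?_⟩
      intro s hs t ht
      have := rz (k - (x.n - D) + s) (k - (x.n - D) + t) (by omega) (by omega)
      rw [show x.n - D + (k - (x.n - D) + s) = k + s by omega,
        show x.n - D + (k - (x.n - D) + t) = k + t by omega] at this
      exact this
  · rw [hn]; omega
  · intro s hs t ht
    rw [zero_add, zero_add]
    exact rx _ _ hs ht
  · intro s hs t ht
    rw [zero_add, zero_add]
    exact rz _ _ hs ht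
  · intro s hs t ht h
    rw [yy_true] at h
    obtain ⟨w, w1, w2, w3, w4⟩ := rel_cross hH xr zr hs
      (show x.n - D ≤ x.n - D + t ∧ x.n - D + t < x.n - D + z.n from ⟨by omega, by omega⟩) h
    refine ⟨w - (x.n - D), by omega, ?_, ?_⟩
    · rw [show x.n - D + (w - (x.n - D)) = w by omega]
      exact w3.2.2
    · have := w4.2.2
      rwa [show x.n - D + t - (x.n - D) = t by omega] at this
  · intro s hs t ht h
    rw [yy_true] at h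
    obtain ⟨w, w1, w2, w3, w4⟩ := rel_cross' hH xr zr hs
      (show x.n - D ≤ x.n - D + t ∧ x.n - D + t < x.n - D + z.n from ⟨by omega, by omega⟩) h
    refine ⟨w - (x.n - D), by omega, ?_, ?_⟩
    · have := w3.2.2
      rwa [show x.n - D + t - (x.n - D) = t by omega] at this
    · rw [show x.n - D + (w - (x.n - D)) = w by omega]
      exact w4.2.2

end Pool.Agent.R474.CE
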