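import Pool.Agent.R474.CE.StmQ

/-! CE-QLEMB (second copy, helper964): in a class without infinite antichains the free pairs have
bounded sizes. -/

set_option autoImplicit false

namespace Pool.Agent.R964.CE

open Pool.Agent.R474.CE Filter

theorem emb_trans {x y z : Str} (h1 : Emb x y) (h2 : Emb y z) : Emb x z := by
  obtain ⟨k, hk, h⟩ := h1
  obtain ⟨l, hl, h'⟩ := h2
  refine ⟨l + k, by omega, fun i hi j hj => ?_⟩
  rw [h i hi j hj, h' (k + i) (by omega) (k + j) (by omega), Nat.add_assoc, Nat.add_assoc]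

instance : IsTrans Str Emb := ⟨fun _ _ _ h1 h2 => emb_trans h1 h2⟩

theorem emb_size {x y : Str} (h : Emb x y) : x.n ≤ y.n := by
  obtain ⟨k, hk, _⟩ := h
  omega

/-- away from the extreme pair the two structures agree -/
theorem fp_agree {u u' : Str} {m : ℕ} (h : FP u u' m) {s t : ℕ} (hs : s < m) (ht : t < m)
    (h1 : ¬ (s = 0 ∧ t = m - 1)) (h2 : ¬ (s = m - 1 ∧ t = 0)) : u.R s t = u'.R s t := by
  by_contra hne
  rcases h.2.2.1 s hs t ht hne with h3 | h3
  · exact h1 h3
  · exact h2 h3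

theorem QLEMB (hA : S_QLEMA) (hU : S_QUNI) : S_QLEMB := by
  intro B b hStd hW
  by_contra hcon
  push Not at hcon
  have hfr : ∃ᶠ m in atTop, b < m ∧ FreeP (Av Pos B) m := by
    rw [frequently_atTop]
    intro m0
    obtain ⟨m, hm, hfp⟩ := hcon (max m0 (b + 1))
    exact ⟨m, (le_max_left _ _).trans hm, by have := (le_max_right m0 (b + 1)).trans hm; omega, hfp⟩
  obtain ⟨φ, hφ, hP⟩ := extraction_of_frequently_atTop hfr
  choose hb u hu u' hu' hfp using hP
  -- no infinite antichain among structures of increasing sizes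
  have key : ∀ f : ℕ → Str, (∀ i, f i ∈ Av Pos B) → (∀ i, (f i).n = φ i) → ∀ g : ℕ ↪o ℕ,
      ∃ h : ℕ ↪o ℕ, ∀ m n, m < n → Emb (f (g (h m))) (f (g (h n))) := by
    intro f hf hn g
    obtain ⟨h, h1 | h1⟩ := exists_increasing_or_nonincreasing_subseq Emb (fun i => f (g i))
    · exact ⟨h, h1⟩
    · exfalso
      apply hW
      refine ⟨fun i => f (g (h i)), fun i => hf _, ?_⟩
      intro i j hij hemb
      rcases lt_or_gt_of_ne hij with hlt | hgt
      · exact h1 i j hlt hemb
      · have hs := emb_size hemb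
        rw [hn, hn] at hs
        have h2 : φ (g (h j)) < φ (g (h i)) := hφ (g.strictMono (h.strictMono hgt))
        omega
  obtain ⟨g, hg⟩ := key u hu (fun i => (hfp i).1) (RelEmbedding.refl _)
  obtain ⟨h, hh⟩ := key u' hu' (fun i => (hfp i).2.1) g
  obtain ⟨k, l, hkl, he, he'⟩ : ∃ k l, k < l ∧ Emb (u k) (u l) ∧ Emb (u' k) (u' l) :=
    ⟨g (h 0), g (h 1), g.strictMono (h.strictMono Nat.zero_lt_one),
      hg (h 0) (h 1) (h.strictMono Nat.zero_lt_one), hh 0 1 Nat.zero_lt_one⟩
  have hm : φ k < φ l := hφ hkl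
  have hbk := hb k
  have hbl := hb l
  have hnk : (u k).n = φ k := (hfp k).1
  have hnl : (u l).n = φ l := (hfp l).1
  have hnk' : (u' k).n = φ k := (hfp k).2.1
  have hnl' : (u' l).n = φ l := (hfp l).2.1
  obtain ⟨p, hp, hpe⟩ := he
  obtain ⟨p', hp', hpe'⟩ := he'
  rw [hnk, hnl] at hp
  rw [hnk', hnl'] at hp'
  rw [hnk] at hpe
  rw [hnk'] at hpe'
  have hTr : Tr (Av Pos B) b (u k) := by
    refine ⟨hu k, by omega, ?_⟩
    intro z hz hpath
    rw [hnk] at hpath
    exact hA B b hStd (φ k) hbk (u k) (hu k) (u' k) (hu' k) (hfp k) z hz hpath hW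
  have hpp : p = p' := by
    refine (hU B b hStd (u k) hTr).1 (u l) (hu l) p p' (by omega) (by omega) ?_ ?_
    · intro r hr s hs t ht
      rw [hnk] at hr
      have h1 := hpe (r + s) (by omega) (r + t) (by omega)
      rw [h1, Nat.add_assoc, Nat.add_assoc]
    · intro r hr s hs t ht
      rw [hnk] at hr
      have h1 := hpe' (r + s) (by omega) (r + t) (by omega)
      have h2 : (u k).R (r + s) (r + t) = (u' k).R (r + s) (r + t) :=
        fp_agree (hfp k) (by omega) (by omega) (by omega) (by omega)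
      have h3 : (u l).R (p' + (r + s)) (p' + (r + t)) = (u' l).R (p' + (r + s)) (p' + (r + t)) :=
        fp_agree (hfp l) (by omega) (by omega) (by omega) (by omega)
      rw [Nat.add_assoc, Nat.add_assoc, h3, ← h1, h2]
  subst hpp
  have hall : ∀ i < φ k, ∀ j < φ k, (u k).R i j = (u' k).R i j := by
    intro i hi j hj
    rw [hpe i hi j hj, hpe' i hi j hj]
    exact fp_agree (hfp l) (by omega) (by omega) (by omega) (by omega)
  rcases (hfp k).2.2.2 with h1 | h1
  · exact h1 (hall 0 (by omega) (φ k - 1) (by omega))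
  · exact h1 (hall (φ k - 1) (by omega) 0 (by omega))

end Pool.Agent.R964.CE
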