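import Pool.Agent.R474.CE.StmQ

/-!
# CE-QPA: the coded criterion for atomicity of posets is primitive recursive
-/

set_option autoImplicit false
set_option linter.all false

namespace Pool.Agent.R474.CE

namespace QPA

theorem fal {α : Type} [Primcodable α] {f : α → ℕ} {P : ℕ → α → Prop} (hf : Primrec f)
    (hP : PrimrecPred (fun q : ℕ × α => P q.1 q.2)) : PrimrecPred (fun a => ∀ x < f a, P x a) := by
  have h1 : PrimrecRel P := hP
  have h2 := h1.forall_mem_list.comp (Primrec.list_range.comp hf) Primrec.id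
  exact h2.of_eq (by intro a; simp)

theorem imp {α : Type} [Primcodable α] {p q : α → Prop} (hp : PrimrecPred p)
    (hq : PrimrecPred q) : PrimrecPred (fun a => p a → q a) :=
  (hp.not.or hq).of_eq (by intro a; by_cases h : p a <;> simp [h])

theorem ppow : Primrec₂ (fun a b : ℕ => a ^ b) := Primrec₂.unpaired'.1 Nat.Primrec.pow

theorem pKK : Primrec KK := by
  have h1 : Primrec (fun b : ℕ => 2 ^ (b * b)) :=
    ppow.comp (Primrec.const 2) (Primrec.nat_mul.comp Primrec.id Primrec.id)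
  have h2 : Primrec (fun b : ℕ => 8 ^ b) := ppow.comp (Primrec.const 8) Primrec.id
  have h3 : Primrec (fun b : ℕ => b + 2 ^ (b * b) * 8 ^ b + 2) :=
    Primrec.nat_add.comp (Primrec.nat_add.comp Primrec.id (Primrec.nat_mul.comp h1 h2))
      (Primrec.const 2)
  exact h3

theorem psq {α : Type} [Primcodable α] {f : α → ℕ} (hf : Primrec f) :
    Primrec (fun a => 2 ^ (f a * f a)) :=
  ppow.comp (Primrec.const 2) (Primrec.nat_mul.comp hf hf)

theorem pS2 (hM : Primrec M) : Primrec S2 := by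
  have h1 : Primrec (fun b : ℕ => M b + b + 4) :=
    Primrec.nat_add.comp (Primrec.nat_add.comp hM Primrec.id) (Primrec.const 4)
  have h3 : Primrec (fun b : ℕ => 2 * (M b + b + 4) + M b) :=
    Primrec.nat_add.comp (Primrec.nat_mul.comp (Primrec.const 2) h1) hM
  exact h3

end QPA

open QPA in
theorem QPA (hF : S_QPFR) (hJ : S_QPJS) (hC : S_QPCN) (hB : S_PBD) : S_QPA := by
  have hbd : Primrec bd := hB.1
  have hK : Primrec (fun B : Inp => KK (bd B)) := pKK.comp hbd
  have hS : Primrec (fun B : Inp => 2 ^ (S2 (bd B) * S2 (bd B))) :=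
    psq ((pS2 hB.2.1).comp hbd)
  have b1 : Primrec (fun B : Inp => 2 * KK (bd B) + 1) :=
    Primrec.nat_add.comp (Primrec.nat_mul.comp (Primrec.const 2) hK) (Primrec.const 1)
  have f1 : PrimrecPred (fun q : ℕ × Inp => freeC q.2 (2 ^ (q.1 * q.1)) q.1) :=
    PrimrecPred.comp (p := fun q : Inp × ℕ × ℕ => freeC q.1 q.2.1 q.2.2)
      (f := fun q : ℕ × Inp => (q.2, 2 ^ (q.1 * q.1), q.1)) hF
      (Primrec.snd.pair ((psq Primrec.fst).pair Primrec.fst))
  have l1 : PrimrecPred (fun q : ℕ × Inp => bd q.2 < q.1) :=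
    Primrec.nat_lt.comp (hbd.comp Primrec.snd) Primrec.fst
  have g1 : PrimrecPred (fun B : Inp => ∀ m < 2 * KK (bd B) + 1, bd B < m →
      ¬ freeC B (2 ^ (m * m)) m) :=
    fal (P := fun m B => bd B < m → ¬ freeC B (2 ^ (m * m)) m) b1 (imp l1 f1.not)
  have g2 : PrimrecPred (fun B : Inp => jsC B (2 ^ (S2 (bd B) * S2 (bd B))) (bd B)) :=
    PrimrecPred.comp (p := fun q : Inp × ℕ × ℕ => jsC q.1 q.2.1 q.2.2)
      (f := fun B : Inp => (B, 2 ^ (S2 (bd B) * S2 (bd B)), bd B)) hJ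
      (Primrec.id.pair (hS.pair hbd))
  have g3 : PrimrecPred (fun B : Inp => cnC B (2 ^ (S2 (bd B) * S2 (bd B))) (bd B)) :=
    PrimrecPred.comp (p := fun q : Inp × ℕ × ℕ => cnC q.1 q.2.1 q.2.2)
      (f := fun B : Inp => (B, 2 ^ (S2 (bd B) * S2 (bd B)), bd B)) hC
      (Primrec.id.pair (hS.pair hbd))
  exact g2.and (g3.or g1)

end Pool.Agent.R474.CE
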